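import Pool.Agent.ACK.StmtsD

/-!
# Squad ACK (MP_0b396c_gt), row LOW: the lower bound
-/

set_option autoImplicit false

namespace Pool.Agent.ACK.H50

open Pool.Agent.ACK.D

theorem sum_ln (b : Fin 6 → ℕ) (m : ℕ) (h : ∑ i, b i = m) : ∑ i, ln b i = 2 * m + 15 := by
  subst h
  simp only [Fin.sum_univ_six, ln]
  simp
  omega

theorem sum_perm (b : Fin 6 → ℕ) (m : ℕ) (h : ∑ i, b i = m) (π : Equiv.Perm (Fin 6)) :
    ∑ i, b (π.symm i) = m := by
  rw [← h]
  exact Equiv.sum_comp π.symm b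

theorem low_aux (hf : FibStmt) (hs : SabStmt) (hc : CntStmt) (m : ℕ) (S : Set (Quot Mv))
    (h1 : ∀ b : Fin 6 → ℕ, ∑ i, b i = m → Quot.mk Mv (Wd pat1 (ln b)) ∈ S)
    (h2 : ∀ b : Fin 6 → ℕ, ∑ i, b i = m → Quot.mk Mv (Wd pat2 (ln b)) ∈ S) :
    ((361 * (m + 5).choose 5 : ℕ) : ℕ∞) ≤ 720 * S.encard := by
  obtain ⟨hfin, hcard⟩ := hs m
  haveI := hfin
  have key := hc {b : Fin 6 → ℕ // ∑ i, b i = m} (Quot Mv)
    (fun x => Quot.mk Mv (Wd pat1 (ln x.1))) (fun x => Quot.mk Mv (Wd pat2 (ln x.1)))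
    (fun x => ⟨fun i => x.1 (tau.symm i), sum_perm x.1 m x.2 tau⟩)
    (fun π x => ⟨fun i => x.1 (π.symm i), sum_perm x.1 m x.2 π⟩) S
    (by
      intro x x' h
      rcases hf.1 x.1 x'.1 h with h | h
      · exact Or.inl (Subtype.ext h)
      · right
        apply Subtype.ext
        funext i
        have := h (tau.symm i)
        rw [Equiv.apply_symm_apply] at this
        exact this)
    (by
      intro x x' h
      obtain ⟨π, hπ⟩ := hf.2.1 x.1 x'.1 h
      refine ⟨π, ?_⟩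
      apply Subtype.ext
      funext i
      have := hπ (π.symm i)
      rw [Equiv.apply_symm_apply] at this
      exact this)
    (fun x x' => hf.2.2 x.1 x'.1)
    (fun x => h1 x.1 x.2) (fun x => h2 x.1 x.2)
  rw [hcard] at key
  exact key

/-- **LOW** -/
theorem low (hw : WknStmt) (hf : FibStmt) (hs : SabStmt) (hc : CntStmt) : LowStmt := by
  intro m
  constructor
  · refine low_aux hf hs hc m _ ?_ ?_
    · intro b hb
      have h := hw pat1 (Or.inl rfl) b (2 * m + 15) (sum_ln b m hb).symm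
      exact ⟨_, h.1, h.2.1, rfl⟩
    · intro b hb
      have h := hw pat2 (Or.inr rfl) b (2 * m + 15) (sum_ln b m hb).symm
      exact ⟨_, h.1, h.2.1, rfl⟩
  · refine low_aux hf hs hc m _ ?_ ?_
    · intro b hb
      have h := hw pat1 (Or.inl rfl) b (2 * m + 15) (sum_ln b m hb).symm
      exact ⟨_, h.1, h.2.2, rfl⟩
    · intro b hb
      have h := hw pat2 (Or.inr rfl) b (2 * m + 15) (sum_ln b m hb).symm
      exact ⟨_, h.1, h.2.2, rfl⟩

end Pool.Agent.ACK.H50
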