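import Pool.Agent.ACK.StmtsA

/-!
# Squad ACK, row CWG: the word of a chain decomposition
-/

set_option autoImplicit false

namespace Pool.Agent.ACK.H50

theorem mem_bk {C : ℕ → List ℕ} {t : Tk} {x : ℕ} : x ∈ bk C t ↔ x ∈ C t.1 := by
  unfold bk
  split_ifs <;> simp

theorem count_bk {C : ℕ → List ℕ} {t : Tk} {x : ℕ} : (bk C t).count x = (C t.1).count x := by
  unfold bk
  split_ifs <;> simp

theorem length_bk {C : ℕ → List ℕ} {t : Tk} : (bk C t).length = (C t.1).length := by
  unfold bk
  split_ifs <;> simp

theorem sum_ite (b : List Tk) (e : ℕ) :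
    (b.map (fun t => if t.1 = e then 1 else 0)).sum = (b.map Prod.fst).count e := by
  induction b with
  | nil => simp
  | cons t b ih =>
    rw [List.map_cons, List.sum_cons, ih, List.map_cons, List.count_cons, add_comm]
    simp

theorem cwg : CwgStmt := by
  intro C b h
  have hlen : (BL C b).length = (b.map (fun t => (C t.1).length)).sum := by
    unfold BL
    rw [List.length_flatMap]
    congr 1
    exact List.map_congr_left (fun t _ => length_bk)
  refine ⟨?_, hlen, ?_⟩
  · intro x hx
    unfold BL at hx ⊢
    rw [List.mem_flatMap] at hx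
    obtain ⟨t0, ht0, hx0⟩ := hx
    rw [mem_bk] at hx0
    rw [List.count_flatMap]
    have e1 : b.map (List.count x ∘ bk C) = b.map (fun t => if t.1 = t0.1 then 1 else 0) := by
      apply List.map_congr_left
      intro t ht
      simp only [Function.comp]
      rw [count_bk]
      by_cases ee : t.1 = t0.1
      · rw [if_pos ee, ee]
        exact List.count_eq_one_of_mem (h.nd t0 ht0) hx0
      · rw [if_neg ee]
        apply List.count_eq_zero_of_not_mem
        intro hxt
        exact h.dj t ht t0 ht0 ee hxt hx0
    rw [e1, sum_ite]
    exact h.tw _ (List.mem_map_of_mem ht0)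
  · rw [hlen]
    have := List.length_le_sum_of_one_le (b.map (fun t => (C t.1).length)) (by
      intro i hi
      rw [List.mem_map] at hi
      obtain ⟨t, ht, rfl⟩ := hi
      exact List.length_pos_of_ne_nil (h.ne t ht))
    simpa using this

end Pool.Agent.ACK.H50
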